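import Mathlib

/-!
Pade polynomials of `T^(1/3)` at `T = 1` and the functional `M_L` (note 1118, parts B2/B3).
-/

namespace Pool.Agent.H126R4

open Polynomial Finset

/-- `P_n`. -/
noncomputable def P : ℕ → ℚ[X]
  | 0 => 1
  | 1 => 1 + 2 * X
  | (n + 2) => C ((n : ℚ) + 5 / 3)⁻¹ *
      (C (2 * (n : ℚ) + 3) * (1 + X) * P (n + 1) - C ((n : ℚ) + 4 / 3) * (X - 1) ^ 2 * P n)

/-- `P*_n`. -/
noncomputable def Ps : ℕ → ℚ[X]
  | 0 => 1
  | 1 => 2 + X
  | (n + 2) => C ((n : ℚ) + 5 / 3)⁻¹ *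
      (C (2 * (n : ℚ) + 3) * (1 + X) * Ps (n + 1) - C ((n : ℚ) + 4 / 3) * (X - 1) ^ 2 * Ps n)

lemma P_rec (n : ℕ) : C ((n : ℚ) + 5 / 3) * P (n + 2) =
    C (2 * (n : ℚ) + 3) * ((1 + X) * P (n + 1)) - C ((n : ℚ) + 4 / 3) * ((X - 1) ^ 2 * P n) := by
  have h : ((n : ℚ) + 5 / 3) ≠ 0 := by positivity
  rw [P, ← mul_assoc, ← C_mul, mul_inv_cancel₀ h, C_1]
  ring

lemma Ps_rec (n : ℕ) : C ((n : ℚ) + 5 / 3) * Ps (n + 2) =
    C (2 * (n : ℚ) + 3) * ((1 + X) * Ps (n + 1)) - C ((n : ℚ) + 4 / 3) * ((X - 1) ^ 2 * Ps n) := by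
  have h : ((n : ℚ) + 5 / 3) ≠ 0 := by positivity
  rw [Ps, ← mul_assoc, ← C_mul, mul_inv_cancel₀ h, C_1]
  ring

/-- `[y^m] T^α f(T)`, `T = 1 + y`. -/
noncomputable def phi (α : ℚ) (m : ℕ) : ℚ[X] →ₗ[ℚ] ℚ :=
  Polynomial.lsum (fun k => (Ring.choose ((k : ℚ) + α) m) • (LinearMap.id : ℚ →ₗ[ℚ] ℚ))

lemma phi_monomial (α : ℚ) (m k : ℕ) (c : ℚ) :
    phi α m (monomial k c) = c * Ring.choose ((k : ℚ) + α) m := by
  simp [phi, Polynomial.lsum, sum_monomial_index, mul_comm]

lemma phi_C_mul (α : ℚ) (m : ℕ) (c : ℚ) (f : ℚ[X]) : phi α m (C c * f) = c * phi α m f := by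
  rw [← smul_eq_C_mul, map_smul, smul_eq_mul]

lemma phi_X_mul (α : ℚ) (m : ℕ) (f : ℚ[X]) : phi α m (X * f) = phi (α + 1) m f := by
  induction f using Polynomial.induction_on' with
  | add p q hp hq => rw [mul_add, map_add, map_add, hp, hq]
  | monomial k c =>
    rw [X_mul_monomial, phi_monomial, phi_monomial]
    push_cast
    rw [show ((k : ℚ) + 1 + α) = (k : ℚ) + (α + 1) by ring]

lemma phi_pascal (α : ℚ) (m : ℕ) (f : ℚ[X]) :
    phi (α + 1) (m + 1) f = phi α m f + phi α (m + 1) f := by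
  induction f using Polynomial.induction_on' with
  | add p q hp hq => rw [map_add, map_add, map_add, hp, hq]; ring
  | monomial k c =>
    rw [phi_monomial, phi_monomial, phi_monomial,
      show ((k : ℚ) + (α + 1)) = ((k : ℚ) + α) + 1 by ring, Ring.choose_succ_succ]
    ring

lemma phi_sub_one_mul (α : ℚ) (m : ℕ) (f : ℚ[X]) :
    phi α (m + 1) ((X - 1) * f) = phi α m f := by
  rw [sub_mul, one_mul, map_sub, phi_X_mul, phi_pascal]
  ring

lemma phi_zero_eq (α : ℚ) (f : ℚ[X]) : phi α 0 f = f.eval 1 := by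
  induction f using Polynomial.induction_on' with
  | add p q hp hq => rw [map_add, eval_add, hp, hq]
  | monomial k c => rw [phi_monomial, Ring.choose_zero_right]; simp

lemma phi_zero_sub_one_mul (α : ℚ) (f : ℚ[X]) : phi α 0 ((X - 1) * f) = 0 := by
  rw [phi_zero_eq]; simp

/-- Vandermonde -/
lemma phi_add_param (α β : ℚ) (m : ℕ) (f : ℚ[X]) :
    phi (α + β) m f = ∑ ij ∈ antidiagonal m, Ring.choose β ij.1 * phi α ij.2 f := by
  induction f using Polynomial.induction_on' with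
  | add p q hp hq =>
    rw [map_add, hp, hq, ← sum_add_distrib]
    exact sum_congr rfl fun ij _ => by rw [map_add]; ring
  | monomial k c =>
    rw [phi_monomial, show ((k : ℚ) + (α + β)) = β + ((k : ℚ) + α) by ring,
      Ring.add_choose_eq _ (Commute.all _ _), mul_sum]
    exact sum_congr rfl fun ij _ => by rw [phi_monomial]; ring

lemma choose_prod (x : ℚ) (m : ℕ) :
    (m.factorial : ℚ) * Ring.choose x m = ∏ i ∈ range m, (x - i) := by
  have h := Ring.descPochhammer_eq_factorial_smul_choose x m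
  rw [nsmul_eq_mul] at h
  rw [← h]
  clear h
  induction m with
  | zero => simp
  | succ m ih =>
    rw [prod_range_succ, ← ih, descPochhammer_succ_right, Polynomial.smeval_mul]
    congr 1
    rw [Polynomial.smeval_sub]
    simp [Polynomial.smeval_X, Polynomial.smeval_natCast]

lemma choose_succ_mul (x : ℚ) (m : ℕ) :
    ((m : ℚ) + 1) * Ring.choose x (m + 1) = (x - m) * Ring.choose x m := by
  have h1 := choose_prod x (m + 1)
  have h2 := choose_prod x m
  rw [prod_range_succ, ← h2, Nat.factorial_succ] at h1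
  push_cast at h1
  have h3 : (m.factorial : ℚ) ≠ 0 := by positivity
  apply mul_left_cancel₀ h3
  linarith

lemma choose_absorb (x : ℚ) (m : ℕ) :
    ((m : ℚ) + 1) * Ring.choose (x + 1) (m + 1) = (x + 1) * Ring.choose x m := by
  rw [Ring.choose_succ_succ, mul_add, choose_succ_mul]
  ring

lemma choose_reflect (x : ℚ) (m : ℕ) :
    Ring.choose x m = (-1) ^ m * Ring.choose ((m : ℚ) - 1 - x) m := by
  have h1 := choose_prod x m
  have h2 := choose_prod ((m : ℚ) - 1 - x) m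
  have h3 : (m.factorial : ℚ) ≠ 0 := by positivity
  apply mul_left_cancel₀ h3
  rw [h1, mul_left_comm, h2, ← prod_range_reflect, ← card_range m, ← prod_const]
  rw [card_range, ← prod_mul_distrib]
  apply prod_congr rfl
  intro i hi
  rw [mem_range] at hi
  have : ((m - 1 - i : ℕ) : ℚ) = (m : ℚ) - 1 - i := by
    rw [Nat.cast_sub (by omega), Nat.cast_sub (by omega)]; simp
  rw [this]
  ring

end Pool.Agent.H126R4
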