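import Pool.Agent.H126R4.Beta1

/-!
Pade property: `T^(1/3) P*_n = P_n + O((T-1)^(2n+1))`, in functional form.
-/

namespace Pool.Agent.H126R4

open Polynomial Finset

lemma natDegree_P (n : ℕ) : (P n).natDegree ≤ n := by
  induction n using Nat.twoStepInduction with
  | zero => simp [P]
  | one =>
    rw [P]
    compute_degree
  | more n h0 h1 =>
    rw [P]
    refine (natDegree_C_mul_le _ _).trans ?_
    refine (natDegree_sub_le _ _).trans (max_le ?_ ?_)
    · refine natDegree_mul_le.trans ?_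
      have : (C (2 * (n : ℚ) + 3) * (1 + X)).natDegree ≤ 1 :=
        (natDegree_C_mul_le _ _).trans (by compute_degree)
      omega
    · refine natDegree_mul_le.trans ?_
      have : (C ((n : ℚ) + 4 / 3) * (X - 1) ^ 2).natDegree ≤ 2 :=
        (natDegree_C_mul_le _ _).trans (by compute_degree)
      omega

lemma natDegree_Ps (n : ℕ) : (Ps n).natDegree ≤ n := by
  induction n using Nat.twoStepInduction with
  | zero => simp [Ps]
  | one =>
    rw [Ps]
    compute_degree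
  | more n h0 h1 =>
    rw [Ps]
    refine (natDegree_C_mul_le _ _).trans ?_
    refine (natDegree_sub_le _ _).trans (max_le ?_ ?_)
    · refine natDegree_mul_le.trans ?_
      have : (C (2 * (n : ℚ) + 3) * (1 + X)).natDegree ≤ 1 :=
        (natDegree_C_mul_le _ _).trans (by compute_degree)
      omega
    · refine natDegree_mul_le.trans ?_
      have : (C ((n : ℚ) + 4 / 3) * (X - 1) ^ 2).natDegree ≤ 2 :=
        (natDegree_C_mul_le _ _).trans (by compute_degree)
      omega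

lemma phi_one_add_mul (α : ℚ) (m : ℕ) (f : ℚ[X]) :
    phi α (m + 1) ((1 + X) * f) = 2 * phi α (m + 1) f + phi α m f := by
  have : (1 + X) * f = C 2 * f + (X - 1) * f := by
    rw [show (C (2 : ℚ) : ℚ[X]) = 2 from map_ofNat C 2]; ring
  rw [this, map_add, phi_C_mul, phi_sub_one_mul]

lemma phi_one_add_mul_zero (α : ℚ) (f : ℚ[X]) :
    phi α 0 ((1 + X) * f) = 2 * phi α 0 f := by
  rw [phi_zero_eq, phi_zero_eq, eval_mul, eval_add, eval_one, eval_X]; norm_num

lemma phi_sq_mul (α : ℚ) (m : ℕ) (f : ℚ[X]) :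
    phi α (m + 2) ((X - 1) ^ 2 * f) = phi α m f := by
  rw [sq, mul_assoc, phi_sub_one_mul, phi_sub_one_mul]

lemma phi_sq_mul_one (α : ℚ) (f : ℚ[X]) :
    phi α 1 ((X - 1) ^ 2 * f) = 0 := by
  rw [sq, mul_assoc, phi_sub_one_mul, phi_zero_sub_one_mul]

lemma phi_sq_mul_zero (α : ℚ) (f : ℚ[X]) :
    phi α 0 ((X - 1) ^ 2 * f) = 0 := by
  rw [sq, mul_assoc, phi_zero_sub_one_mul]

/-- a common recurrence -/
def Rec (U : ℕ → ℕ → ℚ) : Prop :=
  (∀ n : ℕ, ((n : ℚ) + 5 / 3) * U (n + 2) 0 = (2 * (n : ℚ) + 3) * (2 * U (n + 1) 0)) ∧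
  (∀ n : ℕ, ((n : ℚ) + 5 / 3) * U (n + 2) 1 =
    (2 * (n : ℚ) + 3) * (2 * U (n + 1) 1 + U (n + 1) 0)) ∧
  (∀ n m : ℕ, ((n : ℚ) + 5 / 3) * U (n + 2) (m + 2) =
    (2 * (n : ℚ) + 3) * (2 * U (n + 1) (m + 2) + U (n + 1) (m + 1)) -
      ((n : ℚ) + 4 / 3) * U n m)

lemma rec_P (α : ℚ) : Rec (fun n m => phi α m (P n)) := by
  refine ⟨fun n => ?_, fun n => ?_, fun n m => ?_⟩
  · have := congrArg (phi α 0) (P_rec n)
    rw [map_sub, phi_C_mul, phi_C_mul, phi_C_mul, phi_one_add_mul_zero, phi_sq_mul_zero] at this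
    simpa using this
  · have := congrArg (phi α 1) (P_rec n)
    rw [map_sub, phi_C_mul, phi_C_mul, phi_C_mul, phi_one_add_mul, phi_sq_mul_one] at this
    simpa using this
  · have := congrArg (phi α (m + 2)) (P_rec n)
    rw [map_sub, phi_C_mul, phi_C_mul, phi_C_mul, phi_one_add_mul, phi_sq_mul] at this
    simpa using this

lemma rec_Ps (α : ℚ) : Rec (fun n m => phi α m (Ps n)) := by
  refine ⟨fun n => ?_, fun n => ?_, fun n m => ?_⟩
  · have := congrArg (phi α 0) (Ps_rec n)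
    rw [map_sub, phi_C_mul, phi_C_mul, phi_C_mul, phi_one_add_mul_zero, phi_sq_mul_zero] at this
    simpa using this
  · have := congrArg (phi α 1) (Ps_rec n)
    rw [map_sub, phi_C_mul, phi_C_mul, phi_C_mul, phi_one_add_mul, phi_sq_mul_one] at this
    simpa using this
  · have := congrArg (phi α (m + 2)) (Ps_rec n)
    rw [map_sub, phi_C_mul, phi_C_mul, phi_C_mul, phi_one_add_mul, phi_sq_mul] at this
    simpa using this

/-- two solutions of the recurrence with the same first two rows agree -/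
lemma Rec.unique {U V : ℕ → ℕ → ℚ} (hU : Rec U) (hV : Rec V) (h0 : ∀ m, U 0 m = V 0 m)
    (h1 : ∀ m, U 1 m = V 1 m) : ∀ n m, U n m = V n m := by
  intro n
  induction n using Nat.twoStepInduction with
  | zero => exact h0
  | one => exact h1
  | more n ih0 ih1 =>
    intro m
    have hn : ((n : ℚ) + 5 / 3) ≠ 0 := by positivity
    apply mul_left_cancel₀ hn
    match m with
    | 0 => rw [hU.1, hV.1, ih1]
    | 1 => rw [hU.2.1, hV.2.1, ih1, ih1]
    | m + 2 => rw [hU.2.2, hV.2.2, ih1, ih1, ih0]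

/-- `1/(2/3)_n` -/
noncomputable def NN : ℕ → ℚ
  | 0 => 1
  | (n + 1) => NN n / ((n : ℚ) + 2 / 3)

/-- closed form of `[y^m] T^(1/3) P*_n` -/
noncomputable def UU (n m : ℕ) : ℚ :=
  NN n * Ring.choose ((n : ℚ) + 1 / 3) m * ∏ t ∈ range n, ((n : ℚ) + 1 + t - m)

lemma rec_UU : Rec UU := by
  refine ⟨fun n => ?_, fun n => ?_, fun n m => ?_⟩
  · unfold UU
    simp only [NN, Ring.choose_zero_right]
    rw [prod_range_succ, prod_range_succ, prod_range_succ]
    have e1 : ∀ t ∈ range n, (((n + 2 : ℕ) : ℚ) + 1 + (t : ℚ) - ((0 : ℕ) : ℚ)) =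
      ((((n + 2 : ℕ) : ℚ) + 1 + (t : ℚ))) := by intro t _; push_cast; ring
    have e2 : ∀ t ∈ range n, (((n + 1 : ℕ) : ℚ) + 1 + (t : ℚ) - ((0 : ℕ) : ℚ)) =
      ((((n + 1 : ℕ) : ℚ) + 1 + (t : ℚ))) := by intro t _; push_cast; ring
    rw [prod_congr rfl e1, prod_congr rfl e2]
    have key : ∀ n : ℕ, (∏ t ∈ range n, (((n + 2 : ℕ) : ℚ) + 1 + (t : ℚ))) * ((n : ℚ) + 2) =
        (∏ t ∈ range n, (((n + 1 : ℕ) : ℚ) + 1 + (t : ℚ))) * (2 * (n : ℚ) + 2) := by
      intro n
      have : ∀ x : ℚ, ∀ n : ℕ, (∏ t ∈ range n, (x + 1 + (t : ℚ))) * x =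
          (∏ t ∈ range n, (x + (t : ℚ))) * (x + n) := by
        intro x n
        induction n with
        | zero => simp
        | succ n ih =>
          rw [prod_range_succ, prod_range_succ, mul_right_comm, ih]
          push_cast; ring
      have h := this ((n : ℚ) + 2) n
      have e3 : ∀ t ∈ range n, (((n + 2 : ℕ) : ℚ) + 1 + (t : ℚ)) = ((n : ℚ) + 2 + 1 + (t : ℚ)) := by
        intro t _; push_cast; ring
      have e4 : ∀ t ∈ range n, (((n + 1 : ℕ) : ℚ) + 1 + (t : ℚ)) = ((n : ℚ) + 2 + (t : ℚ)) := by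
        intro t _; push_cast; ring
      rw [prod_congr rfl e3, prod_congr rfl e4, h]
      ring
    have k := key n
    have h1 : ((n : ℚ) + 2) ≠ 0 := by positivity
    have k2 : (∏ t ∈ range n, (((n + 2 : ℕ) : ℚ) + 1 + (t : ℚ))) =
        (∏ t ∈ range n, (((n + 1 : ℕ) : ℚ) + 1 + (t : ℚ))) * (2 * (n : ℚ) + 2) / ((n : ℚ) + 2) := by
      rw [eq_div_iff h1, k]
    rw [k2]
    push_cast
    have h2 : ((n : ℚ) + 2 / 3) ≠ 0 := by positivity
    have h3 : ((n : ℚ) + 1 + 2 / 3) ≠ 0 := by positivity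
    field_simp
    ring
  · unfold UU
    simp only [NN, Ring.choose_zero_right, Ring.choose_one_right]
    set A : ℚ := ∏ t ∈ range n, ((n : ℚ) + 2 + (t : ℚ)) with hA
    have a1 : (∏ t ∈ range (n + 2), (((n + 2 : ℕ) : ℚ) + 1 + (t : ℚ) - ((1 : ℕ) : ℚ))) =
        A * (2 * n + 2) * (2 * n + 3) := by
      rw [prod_range_succ, prod_range_succ, hA]
      have : ∀ t ∈ range n, (((n + 2 : ℕ) : ℚ) + 1 + (t : ℚ) - ((1 : ℕ) : ℚ)) =
        ((n : ℚ) + 2 + (t : ℚ)) := by intro t _; push_cast; ring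
      rw [prod_congr rfl this]
      push_cast; ring
    have a2 : (∏ t ∈ range (n + 1), (((n + 1 : ℕ) : ℚ) + 1 + (t : ℚ) - ((1 : ℕ) : ℚ))) =
        A * (n + 1) := by
      rw [prod_range_succ', hA]
      have : ∀ t ∈ range n, (((n + 1 : ℕ) : ℚ) + 1 + ((t + 1 : ℕ) : ℚ) - ((1 : ℕ) : ℚ)) =
        ((n : ℚ) + 2 + (t : ℚ)) := by intro t _; push_cast; ring
      rw [prod_congr rfl this]
      push_cast; ring
    have a3 : (∏ t ∈ range (n + 1), (((n + 1 : ℕ) : ℚ) + 1 + (t : ℚ) - ((0 : ℕ) : ℚ))) =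
        A * (2 * n + 2) := by
      rw [prod_range_succ, hA]
      have : ∀ t ∈ range n, (((n + 1 : ℕ) : ℚ) + 1 + (t : ℚ) - ((0 : ℕ) : ℚ)) =
        ((n : ℚ) + 2 + (t : ℚ)) := by intro t _; push_cast; ring
      rw [prod_congr rfl this]
      push_cast; ring
    rw [a1, a2, a3]
    push_cast
    have h2 : ((n : ℚ) + 2 / 3) ≠ 0 := by positivity
    have h3 : ((n : ℚ) + 1 + 2 / 3) ≠ 0 := by positivity
    field_simp
    ring
  · unfold UU
    simp only [NN]
    set A : ℚ := ∏ t ∈ range n, ((n : ℚ) + 1 + (t : ℚ) - (m : ℚ)) with hA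
    have a1 : (∏ t ∈ range (n + 2), (((n + 2 : ℕ) : ℚ) + 1 + (t : ℚ) - ((m + 2 : ℕ) : ℚ))) =
        A * (2 * n + 1 - m) * (2 * n + 2 - m) := by
      rw [prod_range_succ, prod_range_succ, hA]
      have : ∀ t ∈ range n, (((n + 2 : ℕ) : ℚ) + 1 + (t : ℚ) - ((m + 2 : ℕ) : ℚ)) =
        ((n : ℚ) + 1 + (t : ℚ) - (m : ℚ)) := by intro t _; push_cast; ring
      rw [prod_congr rfl this]
      push_cast; ring
    have a2 : (∏ t ∈ range (n + 1), (((n + 1 : ℕ) : ℚ) + 1 + (t : ℚ) - ((m + 2 : ℕ) : ℚ))) =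
        A * (n - m) := by
      rw [prod_range_succ', hA]
      have : ∀ t ∈ range n, (((n + 1 : ℕ) : ℚ) + 1 + ((t + 1 : ℕ) : ℚ) - ((m + 2 : ℕ) : ℚ)) =
        ((n : ℚ) + 1 + (t : ℚ) - (m : ℚ)) := by intro t _; push_cast; ring
      rw [prod_congr rfl this]
      push_cast; ring
    have a3 : (∏ t ∈ range (n + 1), (((n + 1 : ℕ) : ℚ) + 1 + (t : ℚ) - ((m + 1 : ℕ) : ℚ))) =
        A * (2 * n + 1 - m) := by
      rw [prod_range_succ, hA]
      have : ∀ t ∈ range n, (((n + 1 : ℕ) : ℚ) + 1 + (t : ℚ) - ((m + 1 : ℕ) : ℚ)) =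
        ((n : ℚ) + 1 + (t : ℚ) - (m : ℚ)) := by intro t _; push_cast; ring
      rw [prod_congr rfl this]
      push_cast; ring
    rw [a1, a2, a3]
    set c0 : ℚ := Ring.choose ((n : ℚ) + 1 / 3) m with hc0
    have m1 : ((m : ℚ) + 1) ≠ 0 := by positivity
    have m2 : ((m : ℚ) + 2) ≠ 0 := by positivity
    have c1 : Ring.choose (((n + 1 : ℕ) : ℚ) + 1 / 3) (m + 1) = c0 * ((n : ℚ) + 4 / 3) / (m + 1) := by
      rw [eq_div_iff m1]
      have := choose_absorb ((n : ℚ) + 1 / 3) m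
      rw [show (((n + 1 : ℕ) : ℚ) + 1 / 3) = ((n : ℚ) + 1 / 3 + 1) by push_cast; ring, mul_comm, this]
      ring
    have c2 : Ring.choose (((n + 1 : ℕ) : ℚ) + 1 / 3) (m + 2) =
        c0 * ((n : ℚ) + 4 / 3) * ((n : ℚ) + 1 / 3 - m) / ((m + 1) * (m + 2)) := by
      have := choose_succ_mul (((n + 1 : ℕ) : ℚ) + 1 / 3) (m + 1)
      rw [c1] at this
      rw [eq_div_iff (mul_ne_zero m1 m2)]
      push_cast at this ⊢
      have h5 : Ring.choose ((n : ℚ) + 1 + 1 / 3) (m + 2) * (((m : ℚ) + 1) * (m + 2)) =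
        ((m : ℚ) + 1) * (((m : ℚ) + 1 + 1) * Ring.choose ((n : ℚ) + 1 + 1 / 3) (m + 1 + 1)) := by
        ring_nf
      rw [h5, this]
      field_simp
      ring
    have c3 : Ring.choose (((n + 2 : ℕ) : ℚ) + 1 / 3) (m + 2) =
        c0 * ((n : ℚ) + 4 / 3) * ((n : ℚ) + 7 / 3) / ((m + 1) * (m + 2)) := by
      have := choose_absorb (((n + 1 : ℕ) : ℚ) + 1 / 3) (m + 1)
      rw [c1] at this
      rw [eq_div_iff (mul_ne_zero m1 m2)]
      rw [show (((n + 2 : ℕ) : ℚ) + 1 / 3) = (((n + 1 : ℕ) : ℚ) + 1 / 3 + 1) by push_cast; ring]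
      have h5 : Ring.choose (((n + 1 : ℕ) : ℚ) + 1 / 3 + 1) (m + 2) * (((m : ℚ) + 1) * (m + 2)) =
        ((m : ℚ) + 1) * ((((m + 1 : ℕ) : ℚ) + 1) *
          Ring.choose (((n + 1 : ℕ) : ℚ) + 1 / 3 + 1) (m + 1 + 1)) := by
        push_cast; ring_nf
      rw [h5, this]
      push_cast
      field_simp
      ring
    rw [c1, c2, c3]
    have h2 : ((n : ℚ) + 2 / 3) ≠ 0 := by positivity
    have h3 : ((n : ℚ) + 1 + 2 / 3) ≠ 0 := by positivity
    push_cast
    field_simp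
    ring

lemma phi_Ps (n m : ℕ) : phi (1 / 3) m (Ps n) = UU n m := by
  refine (rec_Ps (1 / 3)).unique rec_UU ?_ ?_ n m
  · intro m
    change phi (1 / 3) m (Ps 0) = _
    have : Ps 0 = monomial 0 1 := by rw [Ps]; rfl
    rw [this, phi_monomial]
    simp [UU, NN]
  · intro m
    change phi (1 / 3) m (Ps 1) = _
    have : Ps 1 = monomial 0 2 + monomial 1 1 := by
      rw [Ps, monomial_one_one_eq_X, monomial_zero_left, map_ofNat C 2]
    rw [this, map_add, phi_monomial, phi_monomial]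
    simp only [UU, NN, prod_range_one]
    push_cast
    rcases m with _ | m
    · simp only [Ring.choose_zero_right]; norm_num
    · have h1 := choose_absorb (1 / 3 : ℚ) m
      have h2 := choose_succ_mul (1 / 3 : ℚ) m
      have m1 : ((m : ℚ) + 1) ≠ 0 := by positivity
      have h3 : Ring.choose (1 / 3 + 1 : ℚ) (m + 1) = (1 / 3 + 1) * Ring.choose (1 / 3 : ℚ) m / (m + 1) := by
        rw [eq_div_iff m1, mul_comm, h1]
      have h4 : Ring.choose (1 / 3 : ℚ) (m + 1) = (1 / 3 - m) * Ring.choose (1 / 3 : ℚ) m / (m + 1) := by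
        rw [eq_div_iff m1, mul_comm, h2]
      rw [show (1 : ℚ) + 1 / 3 = 1 / 3 + 1 by norm_num, h3,
        show (0 : ℚ) + 1 / 3 = 1 / 3 by norm_num, h4]
      push_cast
      field_simp
      ring

lemma UU_zero {n m : ℕ} (h1 : n < m) (h2 : m ≤ 2 * n) : UU n m = 0 := by
  unfold UU
  have : ∏ t ∈ range n, ((n : ℚ) + 1 + t - m) = 0 := by
    apply prod_eq_zero (i := m - n - 1) (mem_range.2 (by omega))
    rw [show m - n - 1 = m - (n + 1) by omega, Nat.cast_sub (by omega)]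
    push_cast; ring
  rw [this, mul_zero]

lemma phi_zero_of_natDegree_lt {f : ℚ[X]} {m : ℕ} (h : f.natDegree < m) : phi 0 m f = 0 := by
  rw [f.as_sum_range, map_sum]
  apply sum_eq_zero
  intro k hk
  rw [mem_range] at hk
  rw [phi_monomial, add_zero, Ring.choose_natCast, Nat.choose_eq_zero_of_lt (by omega)]
  simp

/-- Pade property, central form -/
lemma pade_base (n : ℕ) : ∀ m ≤ 2 * n, phi 0 m (P n) = phi (1 / 3) m (Ps n) := by
  induction n using Nat.twoStepInduction with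
  | zero =>
    intro m hm
    have : m = 0 := by omega
    subst this
    rw [phi_zero_eq, phi_zero_eq]
    simp [P, Ps]
  | one =>
    intro m hm
    have e1 : P 1 = monomial 0 1 + monomial 1 2 := by
      rw [P, ← C_mul_X_eq_monomial, monomial_zero_left, map_ofNat C 2, C_1]
    have e2 : Ps 1 = monomial 0 2 + monomial 1 1 := by
      rw [Ps, monomial_one_one_eq_X, monomial_zero_left, map_ofNat C 2]
    rw [e1, e2, map_add, map_add, phi_monomial, phi_monomial, phi_monomial, phi_monomial]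
    have hc2 : ∀ x : ℚ, Ring.choose x 2 = x * (x - 1) / 2 := by
      intro x
      have := choose_succ_mul x 1
      rw [Ring.choose_one_right] at this
      norm_num at this
      linarith
    interval_cases m
    · simp only [Ring.choose_zero_right]; norm_num
    · simp only [Ring.choose_one_right]; norm_num
    · rw [hc2, hc2, hc2, hc2]; norm_num
  | more n ih0 ih1 =>
    intro m hm
    rcases Nat.lt_or_ge (2 * n + 2) m with h | h
    · rw [phi_zero_of_natDegree_lt (lt_of_le_of_lt (natDegree_P _) (by omega)), phi_Ps,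
        UU_zero (by omega) (by omega)]
    · have hn : ((n : ℚ) + 5 / 3) ≠ 0 := by positivity
      apply mul_left_cancel₀ hn
      have hP := rec_P 0
      have hS := rec_Ps (1 / 3)
      match m, h with
      | 0, _ =>
        rw [hP.1 n, hS.1 n]; dsimp only; rw [ih1 0 (by omega)]
      | 1, _ =>
        rw [hP.2.1 n, hS.2.1 n]; dsimp only; rw [ih1 0 (by omega), ih1 1 (by omega)]
      | m + 2, h =>
        rw [hP.2.2 n m, hS.2.2 n m]; dsimp only
        rw [ih1 (m + 2) (by omega), ih1 (m + 1) (by omega), ih0 m (by omega)]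

end Pool.Agent.H126R4
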