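import Pool.Agent.H126R4.Beta2

/-!
The functional `M_L(h) = Res_{T=1} (T-1)^(-2L) T^(-2/3) P_L(T) h(T) dT`: antisymmetry, recurrences.
-/

namespace Pool.Agent.H126R4

open Polynomial Finset

/-- general Pade property -/
lemma pade (n : ℕ) (β : ℚ) (f : ℚ[X]) (m : ℕ) (hm : m ≤ 2 * n) :
    phi β m (P n * f) = phi (1 / 3 + β) m (Ps n * f) := by
  induction f using Polynomial.induction_on' with
  | add p q hp hq => rw [mul_add, mul_add, map_add, map_add, hp, hq]
  | monomial k c =>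
    have key : ∀ (k : ℕ) (β : ℚ), phi β m (P n * X ^ k) = phi (1 / 3 + β) m (Ps n * X ^ k) := by
      intro k
      induction k with
      | zero =>
        intro β
        rw [pow_zero, mul_one, mul_one]
        have h1 := phi_add_param 0 β m (P n)
        have h2 := phi_add_param (1 / 3) β m (Ps n)
        rw [zero_add] at h1
        rw [h1, h2]
        apply sum_congr rfl
        intro ij hij
        rw [pade_base n ij.2 (by have := mem_antidiagonal.1 hij; omega)]
      | succ k ih =>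
        intro β
        rw [show P n * X ^ (k + 1) = X * (P n * X ^ k) by ring,
          show Ps n * X ^ (k + 1) = X * (Ps n * X ^ k) by ring, phi_X_mul, phi_X_mul, ih]
        congr 2
        ring
    rw [← C_mul_X_pow_eq_monomial,
      show P n * (C c * X ^ k) = C c * (P n * X ^ k) by ring,
      show Ps n * (C c * X ^ k) = C c * (Ps n * X ^ k) by ring, phi_C_mul, phi_C_mul, key]

/-- first error term -/
noncomputable def cc (n : ℕ) : ℚ := UU n (2 * n + 1)

lemma pade_next (n : ℕ) (β : ℚ) (f : ℚ[X]) :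
    phi (1 / 3 + β) (2 * n + 1) (Ps n * f) = phi β (2 * n + 1) (P n * f) + cc n * f.eval 1 := by
  induction f using Polynomial.induction_on' with
  | add p q hp hq => rw [mul_add, mul_add, map_add, map_add, hp, hq, eval_add]; ring
  | monomial k c =>
    have key : ∀ (k : ℕ) (β : ℚ), phi (1 / 3 + β) (2 * n + 1) (Ps n * X ^ k) =
        phi β (2 * n + 1) (P n * X ^ k) + cc n := by
      intro k
      induction k with
      | zero =>
        intro β
        rw [pow_zero, mul_one, mul_one]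
        have h1 := phi_add_param 0 β (2 * n + 1) (P n)
        have h2 := phi_add_param (1 / 3) β (2 * n + 1) (Ps n)
        rw [zero_add] at h1
        rw [h1, h2, Nat.sum_antidiagonal_eq_sum_range_succ_mk, Nat.sum_antidiagonal_eq_sum_range_succ_mk,
          sum_range_succ' _ (2 * n + 1), sum_range_succ' _ (2 * n + 1)]
        have h3 : phi 0 (2 * n + 1) (P n) = 0 :=
          phi_zero_of_natDegree_lt (lt_of_le_of_lt (natDegree_P n) (by omega))
        simp only [Nat.sub_zero, Ring.choose_zero_right, h3, mul_zero, add_zero, one_mul, phi_Ps]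
        rw [cc]
        congr 1
        apply sum_congr rfl
        intro i hi
        rw [mem_range] at hi
        rw [pade_base n _ (by omega), phi_Ps]
      | succ k ih =>
        intro β
        rw [show P n * X ^ (k + 1) = X * (P n * X ^ k) by ring,
          show Ps n * X ^ (k + 1) = X * (Ps n * X ^ k) by ring, phi_X_mul, phi_X_mul, ← ih]
        congr 2
        ring
    rw [← C_mul_X_pow_eq_monomial,
      show P n * (C c * X ^ k) = C c * (P n * X ^ k) by ring,
      show Ps n * (C c * X ^ k) = C c * (Ps n * X ^ k) by ring, phi_C_mul, phi_C_mul, key]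
    simp
    ring

lemma rev1 : reflect 1 (1 + X : ℚ[X]) = 1 + X := by
  have : (1 + X : ℚ[X]) = C 1 * X ^ 0 + C 1 * X ^ 1 := by simp
  rw [this, reflect_add, reflect_C_mul_X_pow, reflect_C_mul_X_pow,
    revAt_le (show 0 ≤ 1 by norm_num), revAt_le (show 1 ≤ 1 by norm_num)]
  ring

lemma rev2 : reflect 2 ((X - 1) ^ 2 : ℚ[X]) = (X - 1) ^ 2 := by
  have : ((X - 1) ^ 2 : ℚ[X]) = C 1 * X ^ 0 + C (-2) * X ^ 1 + C 1 * X ^ 2 := by
    rw [map_neg, map_ofNat C 2]; simp; ring
  rw [this, reflect_add, reflect_add, reflect_C_mul_X_pow, reflect_C_mul_X_pow,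
    reflect_C_mul_X_pow, revAt_le (show 0 ≤ 2 by norm_num), revAt_le (show 1 ≤ 2 by norm_num),
    revAt_le (show 2 ≤ 2 by norm_num)]
  ring

lemma reflect_P (n : ℕ) : reflect n (P n) = Ps n := by
  induction n using Nat.twoStepInduction with
  | zero => rw [P, Ps]; simp
  | one =>
    rw [P, Ps]
    have : (1 + 2 * X : ℚ[X]) = C 1 * X ^ 0 + C 2 * X ^ 1 := by
      rw [map_ofNat C 2]; simp
    rw [this, reflect_add, reflect_C_mul_X_pow, reflect_C_mul_X_pow,
      revAt_le (show 0 ≤ 1 by norm_num), revAt_le (show 1 ≤ 1 by norm_num), map_ofNat C 2]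
    simp
    ring
  | more n ih0 ih1 =>
    have hn : (C ((n : ℚ) + 5 / 3)) ≠ 0 := by
      rw [Ne, C_eq_zero]; positivity
    apply mul_left_cancel₀ hn
    rw [Ps_rec, ← reflect_C_mul, P_rec, reflect_sub, reflect_C_mul, reflect_C_mul]
    have d1 : (1 + X : ℚ[X]).natDegree ≤ 1 := by compute_degree
    have d2 : ((X - 1) ^ 2 : ℚ[X]).natDegree ≤ 2 := by compute_degree
    have e1 : reflect (n + 2) ((1 + X) * P (n + 1)) = (1 + X) * Ps (n + 1) := by
      rw [show n + 2 = 1 + (n + 1) by ring, reflect_mul _ _ d1 (natDegree_P _), ih1, rev1]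
    have e2 : reflect (n + 2) ((X - 1) ^ 2 * P n) = (X - 1) ^ 2 * Ps n := by
      rw [show n + 2 = 2 + n by ring, reflect_mul _ _ d2 (natDegree_P _), ih0, rev2]
    rw [e1, e2]

lemma reflect_Ps (n : ℕ) : reflect n (Ps n) = P n := by
  rw [← reflect_P, reflect_reflect]

lemma phi_reflect (α : ℚ) (m N : ℕ) (f : ℚ[X]) (hf : f.natDegree ≤ N) :
    phi α m (reflect N f) = (-1) ^ m * phi ((m : ℚ) - 1 - N - α) m f := by
  conv_lhs => rw [f.as_sum_range]
  conv_rhs => rw [f.as_sum_range]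
  have : reflect N (∑ i ∈ range (f.natDegree + 1), monomial i (f.coeff i)) =
      ∑ i ∈ range (f.natDegree + 1), reflect N (monomial i (f.coeff i)) := by
    induction (range (f.natDegree + 1)) using Finset.induction_on with
    | empty => simp
    | insert a s ha ih => rw [sum_insert ha, sum_insert ha, reflect_add, ih]
  rw [this, map_sum, map_sum, mul_sum]
  apply sum_congr rfl
  intro k hk
  rw [mem_range] at hk
  rw [← C_mul_X_pow_eq_monomial, reflect_C_mul_X_pow, C_mul_X_pow_eq_monomial,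
    C_mul_X_pow_eq_monomial, phi_monomial, phi_monomial, revAt_le (by omega), choose_reflect,
    Nat.cast_sub (by omega)]
  rw [show (m : ℚ) - 1 - ((N : ℚ) - k + α) = (k : ℚ) + ((m : ℚ) - 1 - N - α) by ring]
  ring

/-- the functional -/
noncomputable def MM (L : ℕ) : ℚ[X] →ₗ[ℚ] ℚ :=
  (phi (-2 / 3) (2 * L - 1)).comp (LinearMap.mulLeft ℚ (P L))

lemma MM_apply (L : ℕ) (h : ℚ[X]) : MM L h = phi (-2 / 3) (2 * L - 1) (P L * h) := rfl

lemma MM_reflect (L : ℕ) (h : ℚ[X]) (hh : h.natDegree ≤ L) :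
    MM (L + 1) (reflect L h) = - MM (L + 1) h := by
  rw [MM_apply, MM_apply, ← reflect_Ps (L + 1), ← reflect_mul _ _ (natDegree_Ps _) hh,
    phi_reflect _ _ _ _ (natDegree_mul_le.trans (by have := natDegree_Ps (L + 1); omega)),
    reflect_Ps, pade (L + 1) _ _ _ (by omega)]
  have : 2 * (L + 1) - 1 = 2 * L + 1 := by omega
  rw [this]
  push_cast
  rw [pow_succ, pow_mul]
  norm_num
  congr 2
  ring

lemma MM_C_mul (L : ℕ) (c : ℚ) (h : ℚ[X]) : MM L (C c * h) = c * MM L h := by
  rw [← smul_eq_C_mul, map_smul, smul_eq_mul]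

lemma MM_antisymm (i j : ℕ) : MM (i + j + 1) (P i * Ps j) = - MM (i + j + 1) (P j * Ps i) := by
  rw [← MM_reflect (i + j) (P j * Ps i) (natDegree_mul_le.trans
    (by have := natDegree_P j; have := natDegree_Ps i; omega))]
  rw [show i + j = j + i by ring, reflect_mul _ _ (natDegree_P j) (natDegree_Ps i),
    reflect_P, reflect_Ps, mul_comm]

lemma MM_antisymm_sq (i j : ℕ) : MM (i + j + 3) ((X - 1) ^ 2 * (P i * Ps j)) =
    - MM (i + j + 3) ((X - 1) ^ 2 * (P j * Ps i)) := by
  have d2 : ((X - 1) ^ 2 : ℚ[X]).natDegree ≤ 2 := by compute_degree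
  have d3 : (P j * Ps i).natDegree ≤ j + i := natDegree_mul_le.trans
    (by have := natDegree_P j; have := natDegree_Ps i; omega)
  have h := MM_reflect (i + j + 2) ((X - 1) ^ 2 * (P j * Ps i)) (natDegree_mul_le.trans
    (by omega))
  rw [show i + j + 3 = i + j + 2 + 1 by ring, ← h]
  rw [show i + j + 2 = 2 + (j + i) by ring, reflect_mul _ _ d2 d3,
    reflect_mul _ _ (natDegree_P j) (natDegree_Ps i), reflect_P, reflect_Ps, rev2,
    mul_comm (Ps j)]

/-- (R2) -/
lemma MM_R2 (L : ℕ) (h : ℚ[X]) : ((L : ℚ) + 8 / 3) * MM (L + 3) ((X - 1) ^ 2 * h) =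
    (2 * (L : ℚ) + 5) * MM (L + 2) ((1 + X) * h) - ((L : ℚ) + 7 / 3) * MM (L + 1) h := by
  have hP := P_rec (L + 1)
  simp only [MM_apply]
  rw [show 2 * (L + 3) - 1 = (2 * L + 3) + 2 by omega,
    show P (L + 3) * ((X - 1) ^ 2 * h) = (X - 1) ^ 2 * (P (L + 3) * h) by ring, phi_sq_mul,
    show 2 * (L + 2) - 1 = 2 * L + 3 by omega, show 2 * (L + 1) - 1 = 2 * L + 1 by omega]
  have h2 := congrArg (fun p => phi (-2 / 3) (2 * L + 3) (p * h)) hP
  rw [show C (((L + 1 : ℕ) : ℚ) + 5 / 3) * P (L + 1 + 2) * h =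
      C (((L + 1 : ℕ) : ℚ) + 5 / 3) * (P (L + 3) * h) by ring, phi_C_mul,
    show (C (2 * ((L + 1 : ℕ) : ℚ) + 3) * ((1 + X) * P (L + 1 + 1)) -
      C (((L + 1 : ℕ) : ℚ) + 4 / 3) * ((X - 1) ^ 2 * P (L + 1))) * h =
      C (2 * ((L + 1 : ℕ) : ℚ) + 3) * (P (L + 2) * ((1 + X) * h)) -
      C (((L + 1 : ℕ) : ℚ) + 4 / 3) * ((X - 1) ^ 2 * (P (L + 1) * h)) by ring,
    map_sub, phi_C_mul, phi_C_mul, show 2 * L + 3 = (2 * L + 1) + 2 by ring, phi_sq_mul] at h2
  push_cast at h2
  rw [show 2 * L + 3 = (2 * L + 1) + 2 by ring]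
  linear_combination h2

/-- (R1), in the variable `P` -/
lemma MM_R1a (L i : ℕ) (h : ℚ[X]) : (2 * (i : ℚ) + 3) * MM L ((1 + X) * (P (i + 1) * h)) =
    ((i : ℚ) + 5 / 3) * MM L (P (i + 2) * h) +
      ((i : ℚ) + 4 / 3) * MM L ((X - 1) ^ 2 * (P i * h)) := by
  rw [← MM_C_mul, ← MM_C_mul, ← MM_C_mul, ← map_add]
  congr 1
  have := P_rec i
  linear_combination (-h) * this

lemma MM_R1b (L i : ℕ) (h : ℚ[X]) : (2 * (i : ℚ) + 3) * MM L ((1 + X) * (h * Ps (i + 1))) =
    ((i : ℚ) + 5 / 3) * MM L (h * Ps (i + 2)) +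
      ((i : ℚ) + 4 / 3) * MM L ((X - 1) ^ 2 * (h * Ps i)) := by
  rw [← MM_C_mul, ← MM_C_mul, ← MM_C_mul, ← map_add]
  congr 1
  have := Ps_rec i
  linear_combination (-h) * this

end Pool.Agent.H126R4
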