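import Pool.Agent.H126R4.Beta3

/-!
Evaluation: `M_{i+j+1}(P_i P*_j) = W(i+j+1,i) - W(i+j+1,j)` with the beta-binomial weights.
-/

namespace Pool.Agent.H126R4

open Polynomial Finset

/-- rising factorial -/
def rf (a : ℚ) (k : ℕ) : ℚ := ∏ i ∈ range k, (a + i)

lemma rf_succ (a : ℚ) (k : ℕ) : rf a (k + 1) = rf a k * (a + k) := by
  rw [rf, prod_range_succ]; rfl

lemma rf_pos {a : ℚ} (ha : 0 < a) (k : ℕ) : 0 < rf a k :=
  prod_pos fun i _ => by positivity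

/-- the weight `binom(i+j,i) (1/3)_i (1/3)_j / (2/3)_{i+j}` -/
def ww (i j : ℕ) : ℚ := ((i + j).choose i : ℚ) * rf (1 / 3) i * rf (1 / 3) j / rf (2 / 3) (i + j)

lemma ww_comm (i j : ℕ) : ww i j = ww j i := by
  unfold ww
  rw [add_comm j i, Nat.choose_symm_add]
  ring

lemma ww_pos (i j : ℕ) : 0 < ww i j := by
  unfold ww
  have h1 := rf_pos (a := 1 / 3) (by norm_num) i
  have h2 := rf_pos (a := 1 / 3) (by norm_num) j
  have h3 := rf_pos (a := 2 / 3) (by norm_num) (i + j)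
  have h4 : 0 < ((i + j).choose i : ℚ) := by
    exact_mod_cast Nat.choose_pos (Nat.le_add_right i j)
  positivity

lemma ww_succ_left (i j : ℕ) : ww (i + 1) j =
    ww i j * (((i : ℚ) + j + 1) * ((i : ℚ) + 1 / 3) / (((i : ℚ) + 1) * ((i : ℚ) + j + 2 / 3))) := by
  unfold ww
  have h1 : ((i + 1 + j).choose (i + 1) : ℚ) * ((i : ℚ) + 1) = ((i : ℚ) + j + 1) * ((i + j).choose i : ℚ) := by
    have := Nat.add_one_mul_choose_eq (i + j) i
    have h2 : ((i + j + 1 : ℕ) : ℚ) * ((i + j).choose i : ℚ) =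
      ((i + j + 1).choose (i + 1) : ℚ) * ((i + 1 : ℕ) : ℚ) := by exact_mod_cast this
    rw [show i + 1 + j = i + j + 1 by ring]
    push_cast at h2
    linarith
  have h3 : ((i : ℚ) + 1) ≠ 0 := by positivity
  have h4 : ((i + 1 + j).choose (i + 1) : ℚ) =
      ((i : ℚ) + j + 1) * ((i + j).choose i : ℚ) / ((i : ℚ) + 1) := by
    rw [eq_div_iff h3, h1]
  rw [h4, rf_succ, show i + 1 + j = (i + j) + 1 by ring, rf_succ]
  have h5 := (rf_pos (a := 2 / 3) (by norm_num) (i + j)).ne'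
  have h6 : ((i : ℚ) + j + 2 / 3) ≠ 0 := by positivity
  push_cast
  field_simp
  ring

lemma ww_succ_right (i j : ℕ) : ww i (j + 1) =
    ww i j * (((i : ℚ) + j + 1) * ((j : ℚ) + 1 / 3) / (((j : ℚ) + 1) * ((i : ℚ) + j + 2 / 3))) := by
  rw [ww_comm, ww_succ_left, ww_comm]
  ring_nf

/-- `W(L,i) = sum_{k<=i} w_k(L)` -/
def WW (L i : ℕ) : ℚ := ∑ k ∈ range (i + 1), ww k (L - k)

lemma WW_succ_right (L i : ℕ) : WW L (i + 1) = WW L i + ww (i + 1) (L - (i + 1)) := by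
  rw [WW, sum_range_succ]; rfl

lemma WW_succ_left (L i : ℕ) (hi : i ≤ L) : WW (L + 1) i =
    WW L i - ww i (L - i) * (((i : ℚ) + 1 / 3) / ((L : ℚ) + 2 / 3)) := by
  induction i with
  | zero =>
    simp only [WW, zero_add, range_one, sum_singleton, Nat.sub_zero]
    rw [ww_succ_right]
    have : ((L : ℚ) + 2 / 3) ≠ 0 := by positivity
    have : ((L : ℚ) + 1) ≠ 0 := by positivity
    push_cast
    field_simp
    ring
  | succ i ih =>
    rw [WW_succ_right, ih (by omega), WW_succ_right]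
    obtain ⟨j, rfl⟩ : ∃ j, L = i + 1 + j := ⟨L - (i + 1), by omega⟩
    rw [show i + 1 + j + 1 - (i + 1) = j + 1 by omega, show i + 1 + j - i = j + 1 by omega,
      show i + 1 + j - (i + 1) = j by omega, ww_succ_right (i + 1) j, ww_succ_left i j,
      ww_succ_right i j]
    push_cast
    have h1 : ((i : ℚ) + 1) ≠ 0 := by positivity
    have h2 : ((i : ℚ) + j + 2 / 3) ≠ 0 := by positivity
    have h3 : ((i : ℚ) + 1 + j + 2 / 3) ≠ 0 := by positivity
    have h4 : ((j : ℚ) + 1) ≠ 0 := by positivity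
    field_simp
    ring

/-- closed form for `M_{i+j+1}(P_i P*_j)` -/
def JJ (i j : ℕ) : ℚ := WW (i + j + 1) i - WW (i + j + 1) j

lemma JJ_antisymm (i j : ℕ) : JJ i j = - JJ j i := by
  unfold JJ
  rw [add_comm j i]; ring

lemma JJ_succ_left (i j : ℕ) : JJ (i + 1) j =
    JJ i j + ww (i + 1) j * (2 * ((j : ℚ) + 1 / 3) / ((i : ℚ) + j + 5 / 3)) := by
  unfold JJ
  rw [show i + 1 + j + 1 = (i + j + 1) + 1 by ring, WW_succ_left _ (i + 1) (by omega),
    WW_succ_left _ j (by omega), WW_succ_right]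
  rw [show i + j + 1 - (i + 1) = j by omega, show i + j + 1 - j = i + 1 by omega,
    ww_comm j (i + 1)]
  push_cast
  have h3 : ((i : ℚ) + j + 1 + 2 / 3) ≠ 0 := by positivity
  have h4 : ((i : ℚ) + j + 5 / 3) ≠ 0 := by positivity
  field_simp
  ring

lemma JJ_succ_right (i j : ℕ) : JJ i (j + 1) =
    JJ i j - ww i (j + 1) * (2 * ((i : ℚ) + 1 / 3) / ((i : ℚ) + j + 5 / 3)) := by
  rw [JJ_antisymm, JJ_succ_left, JJ_antisymm i j, ww_comm]
  ring

/-- closed form for `M_{i+j+3}((T-1)^2 P_i P*_j)` -/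
def YY (i j : ℕ) : ℚ := JJ (i + 1) (j + 1) -
  2 / 3 * ((j : ℚ) - i) * (ww (i + 1) (j + 1) / ((i : ℚ) + j + 8 / 3))

lemma YY_antisymm (i j : ℕ) : YY i j = - YY j i := by
  unfold YY
  rw [JJ_antisymm, ww_comm (j + 1)]
  ring

/-- the relation (R2) for the closed forms -/
lemma closed_R2 (i j : ℕ) : ((i : ℚ) + j + 11 / 3) * YY i (j + 1) * (2 * j + 3) =
    (2 * ((i : ℚ) + j) + 7) *
      (((j : ℚ) + 5 / 3) * JJ i (j + 2) + ((j : ℚ) + 4 / 3) * YY i j) -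
      ((i : ℚ) + j + 10 / 3) * JJ i (j + 1) * (2 * j + 3) := by
  unfold YY
  rw [show j + 2 = (j + 1) + 1 by ring, JJ_succ_left i (j + 1 + 1), JJ_succ_right i (j + 1),
    JJ_succ_left i (j + 1), ww_succ_right (i + 1) (j + 1), ww_succ_left i (j + 1),
    ww_succ_right i (j + 1)]
  push_cast
  have h1 : ((i : ℚ) + 1) ≠ 0 := by positivity
  have h2 : ((i : ℚ) + (j + 1) + 2 / 3) ≠ 0 := by positivity
  have h3 : ((i : ℚ) + 1 + (j + 1) + 2 / 3) ≠ 0 := by positivity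
  have h4 : ((j : ℚ) + 1 + 1) ≠ 0 := by positivity
  have h5 : ((i : ℚ) + (j + 1) + 5 / 3) ≠ 0 := by positivity
  have h6 : ((i : ℚ) + (j + 1 + 1) + 5 / 3) ≠ 0 := by positivity
  have h7 : ((i : ℚ) + j + 8 / 3) ≠ 0 := by positivity
  have h8 : ((i : ℚ) + (j + 1) + 8 / 3) ≠ 0 := by positivity
  field_simp
  ring

/-- the relation (R1) for the closed forms -/
lemma closed_R1 (i j : ℕ) :
    (((i : ℚ) + 5 / 3) * JJ (i + 2) (j + 1) + ((i : ℚ) + 4 / 3) * YY i (j + 1)) * (2 * j + 3) =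
    (((j : ℚ) + 5 / 3) * JJ (i + 1) (j + 2) + ((j : ℚ) + 4 / 3) * YY (i + 1) j) * (2 * i + 3) := by
  unfold YY
  rw [show j + 2 = (j + 1) + 1 by ring, show i + 2 = (i + 1) + 1 by ring,
    JJ_succ_left (i + 1) (j + 1), JJ_succ_right (i + 1) (j + 1),
    ww_succ_left (i + 1) (j + 1), ww_succ_right (i + 1) (j + 1)]
  push_cast
  have h1 : ((i : ℚ) + 1 + 1) ≠ 0 := by positivity
  have h2 : ((i : ℚ) + 1 + (j + 1) + 2 / 3) ≠ 0 := by positivity
  have h4 : ((j : ℚ) + 1 + 1) ≠ 0 := by positivity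
  have h5 : ((i : ℚ) + 1 + (j + 1) + 5 / 3) ≠ 0 := by positivity
  have h7 : ((i : ℚ) + 1 + j + 8 / 3) ≠ 0 := by positivity
  have h8 : ((i : ℚ) + (j + 1) + 8 / 3) ≠ 0 := by positivity
  field_simp
  ring

end Pool.Agent.H126R4
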