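import Pool.Agent.H126R4.Beta4

/-!
Evaluation of `M_{i+j+1}(P_i P*_j)`: the beta-binomial tail.
-/

namespace Pool.Agent.H126R4

open Polynomial Finset

lemma choose_neg_one (m : ℕ) : Ring.choose (-1 : ℚ) m = (-1) ^ m := by
  rw [choose_reflect, show (m : ℚ) - 1 - -1 = (m : ℚ) by ring, Ring.choose_natCast, Nat.choose_self]
  simp

lemma phi_neg_one (m : ℕ) (f : ℚ[X]) (hf : f.natDegree ≤ m) :
    phi (-1) m f = (-1) ^ m * f.coeff 0 := by
  conv_lhs => rw [f.as_sum_range' (m + 1) (by omega)]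
  rw [map_sum, sum_range_succ']
  have : ∑ k ∈ range m, phi (-1) m (monomial (k + 1) (f.coeff (k + 1))) = 0 := by
    apply sum_eq_zero
    intro k hk
    rw [mem_range] at hk
    rw [phi_monomial, show (((k + 1 : ℕ) : ℚ) + -1) = (k : ℚ) by push_cast; ring,
      Ring.choose_natCast, Nat.choose_eq_zero_of_lt hk]
    simp
  rw [this, phi_monomial, Nat.cast_zero, zero_add, zero_add, choose_neg_one]
  ring

lemma P_eval_zero (n : ℕ) : (P n).eval 0 = 1 := by
  induction n using Nat.twoStepInduction with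
  | zero => simp [P]
  | one => simp [P]
  | more n ih0 ih1 =>
    have h := congrArg (Polynomial.eval 0) (P_rec n)
    simp only [eval_mul, eval_sub, eval_add, eval_pow, eval_C, eval_one, eval_X, ih0, ih1] at h
    have hn : ((n : ℚ) + 5 / 3) ≠ 0 := by positivity
    apply mul_left_cancel₀ hn
    rw [h]; ring

lemma P_eval_one_succ (n : ℕ) : ((n : ℚ) + 5 / 3) * (P (n + 2)).eval 1 =
    (2 * (n : ℚ) + 3) * 2 * (P (n + 1)).eval 1 := by
  have h := congrArg (Polynomial.eval 1) (P_rec n)
  simp only [eval_mul, eval_sub, eval_add, eval_pow, eval_C, eval_one, eval_X] at h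
  rw [h]; ring

lemma cc_succ (n : ℕ) : (2 * (n : ℚ) + 3) * 2 * cc (n + 1) = ((n : ℚ) + 4 / 3) * cc n := by
  have h := rec_UU.2.2 n (2 * n + 1)
  rw [UU_zero (n := n + 2) (by omega) (by omega), UU_zero (n := n + 1) (m := 2 * n + 1 + 1)
    (by omega) (by omega)] at h
  unfold cc
  rw [show 2 * (n + 1) + 1 = 2 * n + 1 + 2 by ring]
  linarith

lemma QQ (n : ℕ) : cc n * (P (n + 1)).eval 1 = 2 * ww 0 (n + 1) := by
  induction n with
  | zero =>
    simp [cc, UU, NN, P, ww, rf]
    norm_num
  | succ n ih =>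
    rw [ww_succ_right 0 (n + 1)]
    have h1 := cc_succ n
    have h2 := P_eval_one_succ n
    have h3 : ((n : ℚ) + 5 / 3) ≠ 0 := by positivity
    have h4 : ((2 * (n : ℚ) + 3) * 2) ≠ 0 := by positivity
    have h5 : cc (n + 1) = ((n : ℚ) + 4 / 3) * cc n / ((2 * (n : ℚ) + 3) * 2) := by
      rw [eq_div_iff h4, mul_comm, h1]
    have h6 : (P (n + 2)).eval 1 = (2 * (n : ℚ) + 3) * 2 * (P (n + 1)).eval 1 / ((n : ℚ) + 5 / 3) := by
      rw [eq_div_iff h3, mul_comm, h2]
    rw [h5, show n + 1 + 1 = n + 2 by ring, h6]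
    have h7 : ww 0 (n + 1) = cc n * (P (n + 1)).eval 1 / 2 := by rw [ih]; ring
    rw [h7]
    have h8 : ((n : ℚ) + 1 + 1) ≠ 0 := by positivity
    have h9 : ((n : ℚ) + 1 + 2 / 3) ≠ 0 := by positivity
    push_cast
    rw [zero_add]
    field_simp
    ring

lemma MM_base (n : ℕ) : MM (n + 1) (P 0 * Ps n) = JJ 0 n := by
  have h1 : MM (n + 1) (P 0 * Ps n) = -1 + 2 * ww 0 (n + 1) := by
    rw [MM_apply, show 2 * (n + 1) - 1 = 2 * n + 1 by omega,
      show P (n + 1) * (P 0 * Ps n) = Ps n * P (n + 1) by rw [P]; ring,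
      show (-2 / 3 : ℚ) = 1 / 3 + -1 by norm_num, pade_next, QQ, phi_neg_one]
    · rw [mul_coeff_zero, coeff_zero_eq_eval_zero, coeff_zero_eq_eval_zero, P_eval_zero,
        P_eval_zero, pow_succ, pow_mul]
      norm_num
    · refine natDegree_mul_le.trans ?_
      have := natDegree_P n
      have := natDegree_P (n + 1)
      omega
  have h2 : ∀ n : ℕ, JJ 0 n = -1 + 2 * ww 0 (n + 1) := by
    intro n
    induction n with
    | zero =>
      simp [JJ, ww, rf]
      norm_num
    | succ n ih =>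
      rw [JJ_succ_right, ih, ww_succ_right 0 (n + 1)]
      have h8 : ((n : ℚ) + 1 + 1) ≠ 0 := by positivity
      have h9 : ((n : ℚ) + 1 + 2 / 3) ≠ 0 := by positivity
      have h10 : ((n : ℚ) + 5 / 3) ≠ 0 := by positivity
      push_cast
      rw [zero_add, zero_add]
      field_simp
      ring
  rw [h1, h2]

/-- **Evaluation** of `M_{i+j+1}(P_i P*_j)` and `M_{i+j+3}((T-1)^2 P_i P*_j)`. -/
theorem MM_eval (L : ℕ) :
    (∀ i j, i + j + 1 = L → MM L (P i * Ps j) = JJ i j) ∧
    (∀ i j, i + j + 3 = L → MM L ((X - 1) ^ 2 * (P i * Ps j)) = YY i j) := by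
  induction L using Nat.strong_induction_on with
  | _ L ih =>
    -- Y first
    have hY1 : ∀ i j, i + (j + 1) + 3 = L →
        MM L ((X - 1) ^ 2 * (P i * Ps (j + 1))) = YY i (j + 1) := by
      intro i j hL
      subst hL
      have r2 := MM_R2 (i + j + 1) (P i * Ps (j + 1))
      have r1 := MM_R1b (i + j + 1 + 2) j (P i)
      have e1 := (ih (i + j + 1 + 1) (by omega)).1 i (j + 1) (by omega)
      have e2 := (ih (i + j + 1 + 2) (by omega)).1 i (j + 2) (by omega)
      have e3 := (ih (i + j + 1 + 2) (by omega)).2 i j (by omega)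
      have cl := closed_R2 i j
      rw [e1] at r2
      rw [e2, e3] at r1
      rw [show i + (j + 1) + 3 = i + j + 1 + 3 by ring]
      push_cast at r2
      have k1 : ((i : ℚ) + j + 11 / 3) * (2 * (j : ℚ) + 3) ≠ 0 := by positivity
      apply mul_left_cancel₀ k1
      have r2' : ((i : ℚ) + j + 11 / 3) * MM (i + j + 1 + 3) ((X - 1) ^ 2 * (P i * Ps (j + 1))) =
        (2 * ((i : ℚ) + j) + 7) * MM (i + j + 1 + 2) ((1 + X) * (P i * Ps (j + 1))) -
          ((i : ℚ) + j + 10 / 3) * JJ i (j + 1) := by linear_combination r2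
      linear_combination (2 * (j : ℚ) + 3) * r2' + (2 * ((i : ℚ) + j) + 7) * r1 - cl
    have hY : ∀ i j, i + j + 3 = L → MM L ((X - 1) ^ 2 * (P i * Ps j)) = YY i j := by
      intro i j hL
      rcases j with _ | j
      · rcases i with _ | i
        · subst hL
          have h := MM_antisymm_sq 0 0
          have h2 := YY_antisymm 0 0
          linarith
        · have h := MM_antisymm_sq (i + 1) 0
          rw [hL] at h
          rw [h, YY_antisymm, hY1 0 i (by omega)]
      · exact hY1 i j hL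
    refine ⟨?_, hY⟩
    -- J
    have hanti : ∀ i j, i + j + 1 = L → MM L (P i * Ps j) = - MM L (P j * Ps i) := by
      intro i j hL
      have := MM_antisymm i j
      rw [hL] at this
      exact this
    intro i j hL
    rcases i with _ | i
    · have := MM_base j
      rw [show j + 1 = L by omega] at this
      exact this
    rcases j with _ | j
    · rw [hanti (i + 1) 0 hL, JJ_antisymm (i + 1) 0]
      have := MM_base (i + 1)
      rw [show i + 1 + 1 = L by omega] at this
      rw [this]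
    -- both positive
    obtain ⟨M, hM⟩ : ∃ M, M = i + j := ⟨_, rfl⟩
    have hLM : L = M + 3 := by omega
    set D : ℕ → ℚ := fun a => MM L (P (a + 1) * Ps (M - a + 1)) - JJ (a + 1) (M - a + 1) with hD
    have step : ∀ a, a + 1 ≤ M → ∃ r : ℚ, 0 < r ∧ D (a + 1) = r * D a := by
      intro a ha
      obtain ⟨b, hb⟩ : ∃ b, M = a + 1 + b := ⟨M - (a + 1), by omega⟩
      have r1 := MM_R1a L a (Ps (b + 1))
      have r2 := MM_R1b L b (P (a + 1))
      have y1 := hY a (b + 1) (by omega)
      have y2 := hY (a + 1) b (by omega)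
      have cl := closed_R1 a b
      rw [y1] at r1
      rw [y2] at r2
      refine ⟨((b : ℚ) + 5 / 3) * (2 * a + 3) / (((a : ℚ) + 5 / 3) * (2 * b + 3)), by positivity, ?_⟩
      have k1 : ((a : ℚ) + 5 / 3) * (2 * (b : ℚ) + 3) ≠ 0 := by positivity
      rw [div_mul_eq_mul_div, eq_div_iff k1]
      simp only [hD]
      rw [show M - (a + 1) + 1 = b + 1 by omega, show M - a + 1 = b + 2 by omega,
        show a + 1 + 1 = a + 2 by ring]
      linear_combination (2 * (b : ℚ) + 3) * (-1) * r1 + (2 * (a : ℚ) + 3) * r2 - cl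
    have chain : ∀ a, a ≤ M → ∃ r : ℚ, 0 < r ∧ D a = r * D 0 := by
      intro a
      induction a with
      | zero => intro _; exact ⟨1, one_pos, by ring⟩
      | succ a iha =>
        intro ha
        obtain ⟨r, hr, h⟩ := iha (by omega)
        obtain ⟨s, hs, h'⟩ := step a ha
        exact ⟨s * r, by positivity, by rw [h', h]; ring⟩
    have hend : D M = - D 0 := by
      simp only [hD]
      rw [Nat.sub_self, Nat.sub_zero, zero_add, hanti (M + 1) 1 (by omega),
        JJ_antisymm (M + 1) 1]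
      ring
    obtain ⟨r, hr, h⟩ := chain M le_rfl
    have h0 : D 0 = 0 := by
      have : (r + 1) * D 0 = 0 := by linarith
      rcases mul_eq_zero.1 this with h1 | h1
      · linarith
      · exact h1
    obtain ⟨s, hs, h'⟩ := chain i (by omega)
    rw [h0, mul_zero] at h'
    simp only [hD] at h'
    rw [show M - i + 1 = j + 1 by omega] at h'
    linarith

/-- the beta-binomial weights `w_k(L)` -/
def wgt (L k : ℕ) : ℚ := (L.choose k : ℚ) * rf (1 / 3) k * rf (1 / 3) (L - k) / rf (2 / 3) L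

lemma wgt_eq (L k : ℕ) (h : k ≤ L) : wgt L k = ww k (L - k) := by
  unfold wgt ww
  rw [show k + (L - k) = L by omega]

lemma WW_eq (L i : ℕ) (h : i ≤ L) : WW L i = ∑ k ∈ range (i + 1), wgt L k := by
  unfold WW
  apply sum_congr rfl
  intro k hk
  rw [mem_range] at hk
  rw [wgt_eq L k (by omega)]

lemma WW_total (L : ℕ) : WW L L = 1 := by
  induction L with
  | zero => simp [WW, ww, rf]
  | succ L ih =>
    rw [WW_succ_right, WW_succ_left L L le_rfl, ih, Nat.sub_self, Nat.sub_self, ww_succ_left]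
    have h8 : ((L : ℚ) + 1) ≠ 0 := by positivity
    have h9 : ((L : ℚ) + 2 / 3) ≠ 0 := by positivity
    push_cast
    rw [add_zero]
    field_simp
    ring

lemma sum_wgt (L : ℕ) : ∑ k ∈ range (L + 1), wgt L k = 1 := by
  rw [← WW_eq L L le_rfl, WW_total]

lemma WW_flip (a b : ℕ) : WW (a + b + 1) b = 1 - WW (a + b + 1) a := by
  have h1 := WW_total (a + b + 1)
  have h2 : WW (a + b + 1) (a + b + 1) = WW (a + b + 1) a + WW (a + b + 1) b := by
    unfold WW
    rw [show a + b + 1 + 1 = (a + 1) + (b + 1) by ring, sum_range_add]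
    congr 1
    rw [← sum_range_reflect]
    apply sum_congr rfl
    intro k hk
    rw [mem_range] at hk
    rw [ww_comm]
    congr 1 <;> omega
  linarith

/-- **Closed evaluation** (parts B2/B3): `M_{a+b+1}(P_a P*_b) = 1 - 2 sum_{k>a} w_k`. -/
theorem eval_main (a b : ℕ) : MM (a + b + 1) (P a * Ps b) =
    1 - 2 * ∑ k ∈ Ico (a + 1) (a + b + 2), wgt (a + b + 1) k := by
  rw [(MM_eval (a + b + 1)).1 a b rfl, JJ, WW_flip]
  have h1 := sum_wgt (a + b + 1)
  rw [← sum_range_add_sum_Ico _ (show a + 1 ≤ a + b + 1 + 1 by omega)] at h1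
  rw [WW_eq _ a (by omega)]
  rw [show a + b + 2 = a + b + 1 + 1 by ring]
  linarith

end Pool.Agent.H126R4
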