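import Pool.Agent.H126R4.Beta5

/-!
Polynomial form of the Pade property: `(X-1)^(2n+1) ∣ X P*_n(X³) - P_n(X³)`.
-/

namespace Pool.Agent.H126R4

open Polynomial Finset

/-- `f ↦ ∑_k f_k p(k+α)` -/
noncomputable def ev (α : ℚ) (p : ℚ[X]) : ℚ[X] →ₗ[ℚ] ℚ :=
  Polynomial.lsum (fun k => (p.eval ((k : ℚ) + α)) • (LinearMap.id : ℚ →ₗ[ℚ] ℚ))

lemma ev_monomial (α : ℚ) (p : ℚ[X]) (k : ℕ) (c : ℚ) :
    ev α p (monomial k c) = c * p.eval ((k : ℚ) + α) := by
  simp [ev, Polynomial.lsum, sum_monomial_index, mul_comm]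

/-- mixed functional `∑_k f_k (k+α)^i choose (k+α) j` -/
noncomputable def mx (α : ℚ) (i j : ℕ) : ℚ[X] →ₗ[ℚ] ℚ :=
  Polynomial.lsum (fun k => (((k : ℚ) + α) ^ i * Ring.choose ((k : ℚ) + α) j) •
    (LinearMap.id : ℚ →ₗ[ℚ] ℚ))

lemma mx_monomial (α : ℚ) (i j k : ℕ) (c : ℚ) :
    mx α i j (monomial k c) = c * (((k : ℚ) + α) ^ i * Ring.choose ((k : ℚ) + α) j) := by
  simp [mx, Polynomial.lsum, sum_monomial_index, mul_comm]

lemma mx_zero (α : ℚ) (j : ℕ) (f : ℚ[X]) : mx α 0 j f = phi α j f := by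
  induction f using Polynomial.induction_on' with
  | add p q hp hq => rw [map_add, map_add, hp, hq]
  | monomial k c => rw [mx_monomial, phi_monomial]; ring

lemma mx_succ (α : ℚ) (i j : ℕ) (f : ℚ[X]) :
    mx α (i + 1) j f = ((j : ℚ) + 1) * mx α i (j + 1) f + j * mx α i j f := by
  induction f using Polynomial.induction_on' with
  | add p q hp hq => rw [map_add, map_add, map_add, hp, hq]; ring
  | monomial k c =>
    rw [mx_monomial, mx_monomial, mx_monomial]
    have := choose_succ_mul ((k : ℚ) + α) j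
    linear_combination (-c * ((k : ℚ) + α) ^ i) * this

lemma mx_eq (n : ℕ) : ∀ i j, i + j ≤ 2 * n → mx 0 i j (P n) = mx (1 / 3) i j (Ps n) := by
  intro i
  induction i with
  | zero =>
    intro j hj
    rw [mx_zero, mx_zero, pade_base n j (by omega)]
  | succ i ih =>
    intro j hj
    rw [mx_succ, mx_succ, ih (j + 1) (by omega), ih j (by omega)]

lemma ev_eq_sum (α : ℚ) (p f : ℚ[X]) (N : ℕ) (hp : p.natDegree < N) :
    ev α p f = ∑ i ∈ range N, p.coeff i * mx α i 0 f := by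
  induction f using Polynomial.induction_on' with
  | add f g hf hg =>
    rw [map_add, hf, hg, ← sum_add_distrib]
    exact sum_congr rfl fun i _ => by rw [map_add]; ring
  | monomial k c =>
    rw [ev_monomial, eval_eq_sum_range' hp, mul_sum]
    exact sum_congr rfl fun i _ => by rw [mx_monomial, Ring.choose_zero_right]; ring

lemma ev_eq (n : ℕ) (p : ℚ[X]) (hp : p.natDegree ≤ 2 * n) :
    ev 0 p (P n) = ev (1 / 3) p (Ps n) := by
  rw [ev_eq_sum 0 p (P n) (2 * n + 1) (by omega), ev_eq_sum (1 / 3) p (Ps n) (2 * n + 1) (by omega)]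
  apply sum_congr rfl
  intro i hi
  rw [mem_range] at hi
  rw [mx_eq n i 0 (by omega)]

/-- the polynomial `choose (3x) m` -/
noncomputable def ch3 (m : ℕ) : ℚ[X] := C ((m.factorial : ℚ)⁻¹) * (descPochhammer ℚ m).comp (3 * X)

lemma ch3_natDegree (m : ℕ) : (ch3 m).natDegree ≤ m := by
  unfold ch3
  refine (natDegree_C_mul_le _ _).trans ?_
  rw [natDegree_comp, descPochhammer_natDegree]
  have : (3 * X : ℚ[X]).natDegree ≤ 1 := by compute_degree
  nlinarith

lemma ch3_eval (m N : ℕ) (x : ℚ) (h : 3 * x = N) : (ch3 m).eval x = (N.choose m : ℚ) := by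
  unfold ch3
  rw [eval_mul, eval_C, eval_comp]
  simp only [eval_mul, eval_X, eval_ofNat]
  rw [h, descPochhammer_eval_eq_descFactorial, Nat.descFactorial_eq_factorial_mul_choose]
  have h3 : (m.factorial : ℚ) ≠ 0 := by positivity
  push_cast
  rw [← mul_assoc, inv_mul_cancel₀ h3, one_mul]

lemma coeff_comp_P (m : ℕ) (f : ℚ[X]) :
    ((expand ℚ 3 f).comp (X + 1)).coeff m = ev 0 (ch3 m) f := by
  induction f using Polynomial.induction_on' with
  | add p q hp hq => rw [map_add, add_comp, coeff_add, map_add, hp, hq]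
  | monomial k c =>
    rw [expand_monomial, monomial_comp, coeff_C_mul, coeff_X_add_one_pow, ev_monomial,
      ch3_eval m (k * 3) _ (by push_cast; ring)]

lemma coeff_comp_Ps (m : ℕ) (f : ℚ[X]) :
    ((X * expand ℚ 3 f).comp (X + 1)).coeff m = ev (1 / 3) (ch3 m) f := by
  induction f using Polynomial.induction_on' with
  | add p q hp hq => rw [map_add, mul_add, add_comp, coeff_add, map_add, hp, hq]
  | monomial k c =>
    rw [expand_monomial, X_mul_monomial, monomial_comp, coeff_C_mul, coeff_X_add_one_pow, ev_monomial,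
      ch3_eval m (k * 3 + 1) _ (by push_cast; ring)]

theorem pade_div (n : ℕ) : (X - 1) ^ (2 * n + 1) ∣ X * expand ℚ 3 (Ps n) - expand ℚ 3 (P n) := by
  set F : ℚ[X] := X * expand ℚ 3 (Ps n) - expand ℚ 3 (P n) with hF
  have h1 : X ^ (2 * n + 1) ∣ F.comp (X + 1) := by
    rw [X_pow_dvd_iff]
    intro d hd
    rw [hF, sub_comp, coeff_sub, coeff_comp_P, coeff_comp_Ps,
      ev_eq n (ch3 d) ((ch3_natDegree d).trans (by omega)), sub_self]
  obtain ⟨G, hG⟩ := h1
  refine ⟨G.comp (X - 1), ?_⟩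
  have h2 : F = (F.comp (X + 1)).comp (X - 1) := by
    rw [comp_assoc]; simp
  rw [h2, hG, mul_comp, pow_comp, X_comp]

end Pool.Agent.H126R4
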